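import Pool.Agent.J4H62.QT.Far

/-!
# The combinatorial part (CMB) of project QT
-/

set_option autoImplicit false

namespace Pool.Agent.J4H62.QT

open Filter Finset Pool.Agent.H891R2.Jones Pool.Agent.W639.RB Pool.Agent.W705.JR Pool.Agent.J4H23.QT

variable {m : ℕ}

/-- the numbers of the letters of a word -/
def num (c : List (Fin (m-1))) : Set ℕ := {j | ∃ a ∈ c, (a : ℕ) = j}

/-- all pairs of neighbours in `c` are fine at `V` -/
def prs (c : List (Fin (m-1))) (V : Submodule ℂ (VV m)) : Prop :=
  ∀ i, i ∈ num c → i + 1 ∈ num c → Stab {i, i+1} V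

theorem Stab_mono {J J' : Set ℕ} (h : J ⊆ J') {W : Submodule ℂ (VV m)} (hW : Stab J' W) : Stab J W :=
  fun j hj => hW j (h hj)

theorem num_cons (a : Fin (m-1)) (c : List (Fin (m-1))) (j : ℕ) :
    j ∈ num (a :: c) ↔ j = a ∨ j ∈ num c := by
  unfold num
  simp only [Set.mem_setOf_eq, List.mem_cons, exists_eq_or_imp]
  rw [eq_comm]

/-- one more letter in front of the word -/
theorem prs_step (a : Fin (m-1)) (c : List (Fin (m-1))) (V : Submodule ℂ (VV m))
    (h : prs (a :: c) V) : prs (a :: c) (xx a V) := by
  intro i hi hi1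
  have ha : (a : ℕ) ∈ num (a :: c) := (num_cons a c _).2 (Or.inl rfl)
  by_cases h1 : (a : ℕ) = i ∨ (a : ℕ) = i + 1
  · rw [Stab_xx _ a (Or.inl (by simpa using h1))]
    exact h i hi hi1
  push Not at h1
  by_cases h2 : (a : ℕ) + 1 = i
  · have h3 : Stab {i - 1, i, i + 1} V := by
      have h4 := h a ha (by rw [h2]; exact hi)
      have h5 := h i hi hi1
      intro j hj
      simp only [Set.mem_insert_iff, Set.mem_singleton_iff] at hj
      rcases hj with hj | hj
      · exact h4 j (by simp only [Set.mem_insert_iff, Set.mem_singleton_iff]; omega)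
      · exact h5 j (by simp only [Set.mem_insert_iff, Set.mem_singleton_iff]; omega)
    have h6 := (Stab_xx {i - 1, i, i + 1} a (Or.inl (by
      simp only [Set.mem_insert_iff, Set.mem_singleton_iff]; omega)) V).2 h3
    refine Stab_mono ?_ h6
    intro j hj
    simp only [Set.mem_insert_iff, Set.mem_singleton_iff] at hj ⊢
    omega
  by_cases h3 : (a : ℕ) = i + 2
  · have h4 : Stab {i, i + 1, i + 2} V := by
      have h4 := h i hi hi1
      have h5 := h (i+1) hi1 (by rw [show i + 1 + 1 = (a : ℕ) by omega]; exact ha)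
      intro j hj
      simp only [Set.mem_insert_iff, Set.mem_singleton_iff] at hj
      by_cases hj2 : j = i
      · exact h4 j (by simp only [Set.mem_insert_iff, Set.mem_singleton_iff]; omega)
      · exact h5 j (by simp only [Set.mem_insert_iff, Set.mem_singleton_iff]; omega)
    have h6 := (Stab_xx {i, i + 1, i + 2} a (Or.inl (by
      simp only [Set.mem_insert_iff, Set.mem_singleton_iff]; omega)) V).2 h4
    refine Stab_mono ?_ h6
    intro j hj
    simp only [Set.mem_insert_iff, Set.mem_singleton_iff] at hj ⊢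
    omega
  · rw [Stab_xx _ a (Or.inr fun j hj => by
      simp only [Set.mem_insert_iff, Set.mem_singleton_iff] at hj
      unfold far; omega)]
    exact h i hi hi1

/-- the interval of letters of `c` next to `a`, on the side `s` (`true`: above) -/
def Jp (c : List (Fin (m-1))) (a : ℕ) (s : Bool) : Set ℕ :=
  {j | (s = false ∧ j < a ∨ s = true ∧ a < j) ∧
    ∀ i, (j ≤ i ∧ i < a ∨ a < i ∧ i ≤ j) → i ∈ num c}

theorem Jp_ok (c : List (Fin (m-1))) (a : ℕ) (s : Bool) (x : ℕ) (hx : x ∈ num c)
    (hs : s = false ∧ x < a ∨ s = true ∧ a < x) : ok (Jp c a s) x := by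
  by_cases h : ∀ j ∈ Jp c a s, far x j
  · exact Or.inr h
  · left
    push Not at h
    obtain ⟨j, ⟨hj1, hj2⟩, hj3⟩ := h
    unfold far at hj3
    refine ⟨hs, fun i hi => ?_⟩
    by_cases hix : i = x
    · rw [hix]; exact hx
    · refine hj2 i ?_
      rcases hs with hs | hs <;> rcases hj1 with hj1 | hj1
      · omega
      · exact absurd (hs.1.symm.trans hj1.1) (by simp)
      · exact absurd (hs.1.symm.trans hj1.1) (by simp)
      · omega

/-- the deterministic part: `a` is not in `c`, `b` is a neighbour of `a` in `c`, on the side `s` -/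
theorem pair_step (c y : List (Fin (m-1))) (a b : ℕ) (s : Bool) (V : Submodule ℂ (VV m))
    (ha : a ∉ num c) (hb : b ∈ num c) (hab : s = false ∧ b + 1 = a ∨ s = true ∧ a + 1 = b)
    (hy : ∀ x ∈ y, (x : ℕ) ∈ num c ∧ (x : ℕ) ≠ b ∧ (s = false ∧ (x : ℕ) < a ∨ s = true ∧ a < (x : ℕ)))
    (hV : prs c V) (hg : Stab {a, b} ((wd y)⁻¹ V)) : Stab {a, b} V := by
  have hbJ : b ∈ Jp c a s := by
    refine ⟨?_, fun i hi => ?_⟩
    · rcases hab with h | h
      · left; exact ⟨h.1, by omega⟩
      · right; exact ⟨h.1, by omega⟩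
    · have : i = b := by omega
      rw [this]; exact hb
  have hyJ : ∀ x ∈ y, ok (Jp c a s) x := fun x hx => Jp_ok c a s x (hy x hx).1 (hy x hx).2.2
  have hyJa : ∀ x ∈ y, ok (insert a (Jp c a s)) x := by
    intro x hx
    obtain ⟨h1, h2, h3⟩ := hy x hx
    rcases hyJ x hx with h | h
    · exact Or.inl (Set.mem_insert_of_mem _ h)
    · right
      intro j hj
      rcases hj with hj | hj
      · rw [hj]
        unfold far
        rcases h3 with h3 | h3 <;> rcases hab with h4 | h4
        · omega
        · exact absurd (h3.1.symm.trans h4.1) (by simp)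
        · exact absurd (h3.1.symm.trans h4.1) (by simp)
        · omega
      · exact h j hj
  have hVe : wd y ((wd y)⁻¹ V) = V := Equiv.apply_symm_apply _ _
  have hJ : Stab (Jp c a s) ((wd y)⁻¹ V) := by
    by_cases hb' : ∀ j ∈ Jp c a s, j = b
    · refine Stab_mono ?_ hg
      intro j hj
      right
      exact hb' j hj
    · push Not at hb'
      obtain ⟨j₀, hj₀, hj₀b⟩ := hb'
      rw [← Stab_wd (Jp c a s) y hyJ, hVe]
      intro j hj
      -- the neighbour of `j` in the interval
      by_cases hjb : j = b
      · rcases hab with ⟨hs, hab⟩ | ⟨hs, hab⟩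
        · -- b - 1 is in the interval
          have h1 : b - 1 ∈ num c := hj₀.2 (b-1) (by
            have := hj₀.1
            rcases this with h | h
            · omega
            · exact absurd (hs.symm.trans h.1) (by simp))
          have h3 : 1 ≤ b := by
            rcases hj₀.1 with h | h
            · omega
            · exact absurd (hs.symm.trans h.1) (by simp)
          have h2 := hV (b-1) h1 (by rw [show b - 1 + 1 = b by omega]; exact hb)
          exact h2 j (by
            simp only [Set.mem_insert_iff, Set.mem_singleton_iff]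
            omega)
        · have h1 : b + 1 ∈ num c := hj₀.2 (b+1) (by
            rcases hj₀.1 with h | h
            · exact absurd (hs.symm.trans h.1) (by simp)
            · omega)
          have h2 := hV b hb h1
          exact h2 j (by
            simp only [Set.mem_insert_iff, Set.mem_singleton_iff]
            omega)
      · have hjn : j ∈ num c := hj.2 j (by
          rcases hj.1 with h | h
          · omega
          · omega)
        rcases hab with ⟨hs, hab⟩ | ⟨hs, hab⟩
        · have h1 : j + 1 ∈ num c := hj.2 (j+1) (by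
            rcases hj.1 with h | h
            · omega
            · exact absurd (hs.symm.trans h.1) (by simp))
          exact hV j hjn h1 j (by simp)
        · have h3 : a + 1 < j := by
            rcases hj.1 with h | h
            · exact absurd (hs.symm.trans h.1) (by simp)
            · omega
          have h1 : j - 1 ∈ num c := hj.2 (j-1) (by omega)
          exact hV (j-1) h1 (by rw [show j - 1 + 1 = j by omega]; exact hjn) j (by
            simp only [Set.mem_insert_iff, Set.mem_singleton_iff]
            omega)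
  have hJa : Stab (insert a (Jp c a s)) ((wd y)⁻¹ V) := by
    intro j hj
    rcases hj with hj | hj
    · exact hg j (by rw [hj]; simp)
    · exact hJ j hj
  rw [← Stab_wd _ y hyJa, hVe] at hJa
  refine Stab_mono ?_ hJa
  intro j hj
  rcases hj with hj | hj
  · left; exact hj
  · right
    rw [Set.mem_singleton_iff] at hj
    rw [hj]; exact hbJ

/-- the filter of the complements of the sets in `I` -/
def Fl {X : Type*} (I : Set (Set X)) (h0 : ∅ ∈ I) (h1 : ∀ S ∈ I, ∀ T ⊆ S, T ∈ I)
    (h2 : ∀ S ∈ I, ∀ T ∈ I, S ∪ T ∈ I) : Filter X where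
  sets := {S | Sᶜ ∈ I}
  univ_sets := by
    show (Set.univ)ᶜ ∈ I
    rw [Set.compl_univ]; exact h0
  sets_of_superset := fun {S T} hS hST => h1 _ hS _ (Set.compl_subset_compl.2 hST)
  inter_sets := fun {S T} hS hT => by
    show (S ∩ T)ᶜ ∈ I
    rw [Set.compl_inter]
    exact h2 _ hS _ hT

theorem ev_iff {X : Type*} {I : Set (Set X)} {h0 : ∅ ∈ I} {h1 : ∀ S ∈ I, ∀ T ⊆ S, T ∈ I}
    {h2 : ∀ S ∈ I, ∀ T ∈ I, S ∪ T ∈ I} {p : X → Prop} :
    (∀ᶠ x in Fl I h0 h1 h2, p x) ↔ {x | ¬ p x} ∈ I := Iff.rfl

theorem num_lt (c : List (Fin (m-1))) (j : ℕ) (h : j ∈ num c) : j + 1 < m := by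
  obtain ⟨a, _, h2⟩ := h
  have := a.2
  omega

/-- all pairs of `c` are fine, almost everywhere, from the pairs one by one -/
theorem ev_prs (F : Filter (Submodule ℂ (VV m))) (c : List (Fin (m-1)))
    (f : Submodule ℂ (VV m) → Submodule ℂ (VV m))
    (h : ∀ i, i ∈ num c → i + 1 ∈ num c → ∀ᶠ W in F, Stab {i, i+1} (f W)) :
    ∀ᶠ W in F, prs c (f W) := by
  have h1 : ∀ᶠ W in F, ∀ i : Fin m, (i : ℕ) ∈ num c → (i : ℕ) + 1 ∈ num c → Stab {(i : ℕ), (i : ℕ)+1} (f W) := by
    rw [eventually_all]
    intro i
    by_cases h2 : (i : ℕ) ∈ num c ∧ (i : ℕ) + 1 ∈ num c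
    · filter_upwards [h i h2.1 h2.2] with W hW _ _ using hW
    · exact Eventually.of_forall fun W h3 h4 => absurd ⟨h3, h4⟩ h2
  filter_upwards [h1] with W hW i hi hi1
  exact hW ⟨i, by have := num_lt c i hi; omega⟩ hi hi1

theorem main (Γ : Set (Equiv.Perm (Submodule ℂ (VV m)))) (F : Filter (Submodule ℂ (VV m)))
    (hgap : ∀ (i : ℕ) (h : i + 2 < m) (g : Equiv.Perm (Submodule ℂ (VV m))),
      g⁻¹ * (xx (m := m) ⟨i, by omega⟩ * xx ⟨i, by omega⟩) * g ∈ Γ →
      g⁻¹ * (xx (m := m) ⟨i+1, by omega⟩ * xx ⟨i+1, by omega⟩) * g ∈ Γ →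
      ∀ᶠ W in F, Stab {i, i+1} (g W))
    (c : List (Fin (m-1)))
    (hc : ∀ (c1 c2 : List (Fin (m-1))) (a : Fin (m-1)), c = c1 ++ a :: c2 →
      (wd c2)⁻¹ * (xx a * xx a) * wd c2 ∈ Γ) : ∀ᶠ W in F, prs c (wd c W) := by
  induction c with
  | nil =>
    refine Eventually.of_forall fun W i hi => ?_
    obtain ⟨a, ha, _⟩ := hi
    simp at ha
  | cons a c ih =>
    have ih' := ih fun c1 c2 b h => hc (a :: c1) c2 b (by rw [h]; rfl)
    have ha2 : (wd c)⁻¹ * (xx a * xx a) * wd c ∈ Γ := hc [] c a rfl
    -- the new pair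
    have hnew : (a : ℕ) ∉ num c → ∀ b : Fin (m-1), b ∈ c → ∀ s : Bool,
        (s = false ∧ (b : ℕ) + 1 = a ∨ s = true ∧ (a : ℕ) + 1 = b) →
        ∀ᶠ W in F, Stab {(a : ℕ), (b : ℕ)} (wd c W) := by
      intro ha b hb s hs
      obtain ⟨y, c2, hyc, hby⟩ := List.eq_append_cons_of_mem hb
      set P : Fin (m-1) → Bool := fun x => if s then decide ((a : ℕ) < x) else decide ((x : ℕ) < a) with hP
      have hmem : ∀ x ∈ y, (x : ℕ) ∈ num c := fun x hx => ⟨x, by rw [hyc]; exact List.mem_append_left _ hx, rfl⟩
      have hxa : ∀ x ∈ y, (x : ℕ) ≠ a := fun x hx h => ha (by rw [← h]; exact hmem x hx)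
      have hxb : ∀ x ∈ y, (x : ℕ) ≠ b := fun x hx h => hby (by rw [← Fin.ext h]; exact hx)
      have hP1 : ∀ x, P x = true → (s = false ∧ (x : ℕ) < a ∨ s = true ∧ (a : ℕ) < (x : ℕ)) := by
        intro x hx
        rw [hP] at hx
        cases s with
        | true => right; simpa using hx
        | false => left; simpa using hx
      have hP0 : ∀ x, P x = false → (s = false ∧ (a : ℕ) ≤ x ∨ s = true ∧ (x : ℕ) ≤ a) := by
        intro x hx
        rw [hP] at hx
        cases s with
        | true => right; simpa using hx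
        | false => left; simpa using hx
      have hsplit := wd_split P y (fun x hx x' hx' h0 h1 => by
        have e1 := hP0 x h0
        have e2 := hP1 x' h1
        have e3 := hxa x hx
        have e4 := hxa x' hx'
        have e5 := hxb x' hx'
        unfold far
        cases s with
        | true => simp only [reduceCtorEq, false_and, true_and, false_or] at e1 e2 hs; omega
        | false => simp only [reduceCtorEq, false_and, true_and, or_false] at e1 e2 hs; omega)
      set y1 := y.filter P with hy1
      set y2 := y.filter fun x => !P x with hy2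
      set g : Equiv.Perm (Submodule ℂ (VV m)) := wd y2 * xx b * wd c2 with hg
      have hwc : wd c = wd y1 * g := by
        rw [hyc, wd_append, wd_cons, hsplit, hg]
        simp only [mul_assoc]
      have hc1 : Commute (xx a) (wd y1) := xx_wd a y1 fun x hx => by
        have hx' := List.mem_filter.1 hx
        have e1 := hP1 x hx'.2
        have e2 := hxa x hx'.1
        have e3 := hxb x hx'.1
        unfold far
        cases s with
        | true => simp only [reduceCtorEq, false_and, true_and, false_or] at e1 hs; omega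
        | false => simp only [reduceCtorEq, false_and, true_and, or_false] at e1 hs; omega
      have hc2 : Commute (xx b) (wd y2) := xx_wd b y2 fun x hx => by
        have hx' := List.mem_filter.1 hx
        have e1 := hP0 x (by simpa using hx'.2)
        have e2 := hxa x hx'.1
        have e3 := hxb x hx'.1
        unfold far
        cases s with
        | true => simp only [reduceCtorEq, false_and, true_and, false_or] at e1 hs; omega
        | false => simp only [reduceCtorEq, false_and, true_and, or_false] at e1 hs; omega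
      have hgb : g⁻¹ * (xx b * xx b) * g = (wd c2)⁻¹ * (xx b * xx b) * wd c2 := by
        have e1 : (wd y2)⁻¹ * (xx b * xx b) * wd y2 = xx b * xx b := by
          have := (hc2.mul_left hc2).eq
          rw [mul_assoc, this, inv_mul_cancel_left]
        rw [hg]
        calc (wd y2 * xx b * wd c2)⁻¹ * (xx b * xx b) * (wd y2 * xx b * wd c2)
            = (wd c2)⁻¹ * (xx b)⁻¹ * ((wd y2)⁻¹ * (xx b * xx b) * wd y2) * xx b * wd c2 := by group
          _ = _ := by rw [e1]; group
      have hga : g⁻¹ * (xx a * xx a) * g = (wd c)⁻¹ * (xx a * xx a) * wd c := by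
        have e1 : (wd y1)⁻¹ * (xx a * xx a) * wd y1 = xx a * xx a := by
          have := (hc1.mul_left hc1).eq
          rw [mul_assoc, this, inv_mul_cancel_left]
        rw [hwc]
        calc g⁻¹ * (xx a * xx a) * g = g⁻¹ * ((wd y1)⁻¹ * (xx a * xx a) * wd y1) * g := by rw [e1]
          _ = _ := by group
      have hgb' : g⁻¹ * (xx b * xx b) * g ∈ Γ := by
        rw [hgb]
        exact hc (a :: y) c2 b (by rw [hyc]; rfl)
      have hga' : g⁻¹ * (xx a * xx a) * g ∈ Γ := by
        rw [hga]; exact ha2
      have hst : ∀ᶠ W in F, Stab {(a : ℕ), (b : ℕ)} (g W) := by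
        have ham := a.2
        have hbm := b.2
        rcases hs with ⟨_, hs⟩ | ⟨_, hs⟩
        · have e1 : (⟨b, by omega⟩ : Fin (m-1)) = b := rfl
          have e2 : (⟨(b : ℕ) + 1, by omega⟩ : Fin (m-1)) = a := Fin.ext hs
          have h3 := hgap b (by omega) g (by rw [e1]; exact hgb') (by rw [e2]; exact hga')
          filter_upwards [h3] with W hW
          rw [← hs, Set.pair_comm]; exact hW
        · have e1 : (⟨a, by omega⟩ : Fin (m-1)) = a := rfl
          have e2 : (⟨(a : ℕ) + 1, by omega⟩ : Fin (m-1)) = b := Fin.ext hs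
          have h3 := hgap a (by omega) g (by rw [e1]; exact hga') (by rw [e2]; exact hgb')
          filter_upwards [h3] with W hW
          rw [← hs]; exact hW
      filter_upwards [ih', hst] with W h1 h2
      refine pair_step c y1 a b s (wd c W) ha ⟨b, hb, rfl⟩ hs ?_ h1 ?_
      · intro x hx
        have hx' := List.mem_filter.1 hx
        exact ⟨hmem x hx'.1, hxb x hx'.1, hP1 x hx'.2⟩
      · have e1 : (wd y1)⁻¹ (wd c W) = g W := by
          rw [hwc, Equiv.Perm.mul_apply]
          exact Equiv.symm_apply_apply _ _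
        rw [e1]; exact h2
    -- all pairs of `a :: c`
    have hall : ∀ᶠ W in F, prs (a :: c) (wd c W) := by
      refine ev_prs F (a :: c) (fun W => wd c W) fun i hi hi1 => ?_
      rw [num_cons] at hi hi1
      by_cases h1 : i ∈ num c
      · by_cases h2 : i + 1 ∈ num c
        · filter_upwards [ih'] with W hW using hW i h1 h2
        · obtain ⟨b, hb, hb'⟩ := h1
          have h3 : i + 1 = a := by tauto
          have h4 := hnew (by rw [← h3]; exact h2) b hb false (Or.inl ⟨rfl, by omega⟩)
          filter_upwards [h4] with W hW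
          rw [h3, ← hb', Set.pair_comm]; exact hW
      · have h3 : i = a := by tauto
        have h2 : i + 1 ∈ num c := by
          rcases hi1 with h | h
          · omega
          · exact h
        obtain ⟨b, hb, hb'⟩ := h2
        have h4 := hnew (by rw [← h3]; exact h1) b hb true (Or.inr ⟨rfl, by omega⟩)
        filter_upwards [h4] with W hW
        rw [h3] at hb' ⊢
        rw [← hb']; exact hW
    filter_upwards [hall] with W hW
    rw [wd_cons, Equiv.Perm.mul_apply]
    exact prs_step a c _ hW

theorem t_CMB : S_CMB := by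
  intro m Γ I h0 h1 h2 hgap c hc i h hi hi1
  have h3 := main Γ (Fl I h0 h1 h2) (fun i h g hg1 hg2 => by
    rw [ev_iff]
    exact hgap i h g hg1 hg2) c hc
  have h4 : ∀ᶠ W in Fl I h0 h1 h2, Stab {i, i+1} (wd c W) := by
    filter_upwards [h3] with W hW
    exact hW i ⟨_, hi, rfl⟩ ⟨_, hi1, rfl⟩
  exact h4

end Pool.Agent.J4H62.QT
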