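import Pool.Agent.J4H23.QT.Stm

/-!
# Exponential decay for products of different averaging operators (project QT, piece DEC)
-/

set_option autoImplicit false

namespace Pool.Agent.J4H62.QT

open Finset Pool.Agent.H891R2.Jones Pool.Agent.W639.RB Pool.Agent.W705.JR Pool.Agent.J4H23.QT

section words

variable {ι : Type} [Fintype ι] {B : Set (List (ι → ℝ))}

/-- all the entries of a word are probability vectors -/
theorem Sc_isP (hB : ∀ b ∈ B, ∀ p ∈ b, IsP p) {k : ℕ} {P : List (ι → ℝ)} (h : Sc B k P) :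
    ∀ p ∈ P, IsP p := by
  induction h with
  | nil => intro p hp; simp at hp
  | step p hp h ih =>
    intro q hq
    rcases List.mem_cons.1 hq with h1 | h1
    · rw [h1]; exact hp
    · exact ih q h1
  | block b hb h ih =>
    intro q hq
    rcases List.mem_append.1 hq with h1 | h1
    · exact hB b hb q h1
    · exact ih q h1

theorem Sc_steps {k : ℕ} {P : List (ι → ℝ)} (h : Sc B k P) :
    ∀ b : List (ι → ℝ), (∀ p ∈ b, IsP p) → Sc B k (b ++ P)
  | [], _ => h
  | (p :: b), hb => Sc.step p (hb p List.mem_cons_self)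
      (Sc_steps h b fun q hq => hb q (List.mem_cons_of_mem _ hq))

theorem Sc_weak (hB : ∀ b ∈ B, ∀ p ∈ b, IsP p) {n : ℕ} {P : List (ι → ℝ)} (h : Sc B n P) :
    ∀ k, n = k + 1 → Sc B k P := by
  induction h with
  | nil => intro k hk; omega
  | step p hp h ih =>
    intro k hk
    exact Sc.step p hp (ih k hk)
  | block b hb h ih =>
    intro k hk
    obtain rfl : _ = k := Nat.succ_injective hk
    exact Sc_steps h b (hB b hb)

theorem Sc_split {n : ℕ} {P : List (ι → ℝ)} (h : Sc B n P) :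
    ∀ a b, n = a + b → ∃ P1 P2, P = P1 ++ P2 ∧ Sc B a P1 ∧ Sc B b P2 := by
  induction h with
  | nil =>
    intro a b hab
    obtain ⟨rfl, rfl⟩ : a = 0 ∧ b = 0 := by omega
    exact ⟨[], [], rfl, Sc.nil, Sc.nil⟩
  | step p hp h ih =>
    intro a b hab
    obtain ⟨P1, P2, h1, h2, h3⟩ := ih a b hab
    exact ⟨p :: P1, P2, by rw [h1]; rfl, Sc.step p hp h2, h3⟩
  | block c hc h ih =>
    intro a b hab
    rcases a with _ | a
    · rw [Nat.zero_add] at hab
      subst hab
      exact ⟨[], _, rfl, Sc.nil, Sc.block c hc h⟩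
    · obtain ⟨P1, P2, h1, h2, h3⟩ := ih a b (by omega)
      exact ⟨c ++ P1, P2, by rw [h1, List.append_assoc], Sc.block c hc h2, h3⟩

end words

section ops

variable {X ι : Type} [Fintype ι]

theorem opr_append (σ : ι → Equiv.Perm X) (f : L2 X) : ∀ P Q : List (ι → ℝ),
    opr σ (P ++ Q) f = opr σ P (opr σ Q f)
  | [], _ => rfl
  | (p :: P), Q => by
    show avg p σ (opr σ (P ++ Q) f) = avg p σ (opr σ P (opr σ Q f))
    rw [opr_append σ f P Q]

theorem avg_le (p : ι → ℝ) (hp : IsP p) (σ : ι → Equiv.Perm X) (f : L2 X) :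
    ‖avg p σ f‖ ≤ ‖f‖ := by
  unfold avg
  refine (norm_sum_le _ _).trans ?_
  calc ∑ l, ‖p l • sh (σ l) f‖ = ∑ l, p l * ‖f‖ := by
        refine Finset.sum_congr rfl fun l _ => ?_
        rw [norm_smul, Real.norm_of_nonneg (hp.1 l), sh_norm]
    _ = ‖f‖ := by rw [← Finset.sum_mul, hp.2, one_mul]
    _ ≤ ‖f‖ := le_rfl

end ops

section main

variable {V ι : Type} [AddCommGroup V] [Module ℂ V] [Fintype ι] {g : ι → V ≃ₗ[ℂ] V} {ξ : V}

theorem hitL_cons (p : ι → ℝ) (P : List (ι → ℝ)) (W : Submodule ℂ V) :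
    hitL g ξ (p :: P) W = ∑ l, p l * hitL g ξ P ((act (g l))⁻¹ W) := rfl

theorem hitL_nonneg : ∀ (P : List (ι → ℝ)), (∀ p ∈ P, IsP p) → ∀ (W : Submodule ℂ V),
    0 ≤ hitL g ξ P W
  | [], _, W => by unfold hitL; split_ifs <;> norm_num
  | (p :: P), hP, W => by
    rw [hitL_cons]
    exact Finset.sum_nonneg fun l _ => mul_nonneg ((hP p List.mem_cons_self).1 l)
      (hitL_nonneg P (fun q hq => hP q (List.mem_cons_of_mem _ hq)) _)

theorem hitL_le_one : ∀ (P : List (ι → ℝ)), (∀ p ∈ P, IsP p) → ∀ (W : Submodule ℂ V),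
    hitL g ξ P W ≤ 1
  | [], _, W => by unfold hitL; split_ifs <;> norm_num
  | (p :: P), hP, W => by
    have hp := hP p List.mem_cons_self
    rw [hitL_cons]
    calc ∑ l, p l * hitL g ξ P ((act (g l))⁻¹ W) ≤ ∑ l, p l * 1 :=
          Finset.sum_le_sum fun l _ => mul_le_mul_of_nonneg_left
            (hitL_le_one P (fun q hq => hP q (List.mem_cons_of_mem _ hq)) _) (hp.1 l)
      _ = 1 := by simp [hp.2]

/-- Bonferroni -/
theorem bonferroniL {α : Type*} [DecidableEq α] :
    ∀ (P : List (ι → ℝ)), (∀ p ∈ P, IsP p) → ∀ (F : Finset α) (s : α → Submodule ℂ V),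
      ∑ a ∈ F, hitL g ξ P (s a) ≤ 1 + ∑ a ∈ F, ∑ b ∈ F.erase a, hitL g ξ P (s a ⊓ s b)
  | [], _, F, s => by
    classical
    unfold hitL
    have h1 : ∑ a ∈ F, (if ξ ∈ s a then (1:ℝ) else 0) = ((F.filter (fun a => ξ ∈ s a)).card : ℝ) := by
      rw [Finset.sum_ite, Finset.sum_const_zero, add_zero, Finset.sum_const, nsmul_eq_mul, mul_one]
    rw [h1]
    set J := F.filter (fun a => ξ ∈ s a) with hJ
    have h2 : ∑ a ∈ J, ∑ b ∈ J.erase a, (1:ℝ) ≤
        ∑ a ∈ F, ∑ b ∈ F.erase a, (if ξ ∈ s a ⊓ s b then (1:ℝ) else 0) := by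
      have e1 : ∑ a ∈ J, ∑ b ∈ F.erase a, (if ξ ∈ s a ⊓ s b then (1:ℝ) else 0) ≤
          ∑ a ∈ F, ∑ b ∈ F.erase a, (if ξ ∈ s a ⊓ s b then (1:ℝ) else 0) :=
        Finset.sum_le_sum_of_subset_of_nonneg (Finset.filter_subset _ _)
          (fun a _ _ => Finset.sum_nonneg fun b _ => by split_ifs <;> norm_num)
      refine le_trans ?_ e1
      refine Finset.sum_le_sum fun a ha => ?_
      have e2 : ∑ b ∈ J.erase a, (if ξ ∈ s a ⊓ s b then (1:ℝ) else 0) ≤
          ∑ b ∈ F.erase a, (if ξ ∈ s a ⊓ s b then (1:ℝ) else 0) :=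
        Finset.sum_le_sum_of_subset_of_nonneg (Finset.erase_subset_erase _ (Finset.filter_subset _ _))
          (fun b _ _ => by split_ifs <;> norm_num)
      refine le_trans (le_of_eq ?_) e2
      refine Finset.sum_congr rfl fun b hb => ?_
      have hb' := Finset.mem_of_mem_erase hb
      rw [hJ, Finset.mem_filter] at ha hb'
      rw [if_pos ⟨ha.2, hb'.2⟩]
    have h3 : ∑ a ∈ J, ∑ b ∈ J.erase a, (1:ℝ) = (J.card : ℝ) * ((J.card : ℝ) - 1) := by
      have : ∀ a ∈ J, ∑ b ∈ J.erase a, (1:ℝ) = (J.card : ℝ) - 1 := by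
        intro a ha
        rw [Finset.sum_const, nsmul_eq_mul, mul_one, Finset.card_erase_of_mem ha, Nat.cast_sub
          (Finset.card_pos.2 ⟨a, ha⟩)]
        simp
      rw [Finset.sum_congr rfl this, Finset.sum_const, nsmul_eq_mul]
    rw [h3] at h2
    nlinarith [sq_nonneg ((J.card : ℝ) - 1)]
  | (p :: P), hP, F, s => by
    have hp := hP p List.mem_cons_self
    simp only [hitL_cons]
    have h1 : ∑ a ∈ F, ∑ l, p l * hitL g ξ P ((act (g l))⁻¹ (s a)) =
        ∑ l, p l * ∑ a ∈ F, hitL g ξ P ((act (g l))⁻¹ (s a)) := by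
      rw [Finset.sum_comm]
      exact Finset.sum_congr rfl fun l _ => by rw [Finset.mul_sum]
    have h2 : ∑ a ∈ F, ∑ b ∈ F.erase a, ∑ l, p l * hitL g ξ P ((act (g l))⁻¹ (s a ⊓ s b)) =
        ∑ l, p l * ∑ a ∈ F, ∑ b ∈ F.erase a, hitL g ξ P ((act (g l))⁻¹ (s a) ⊓ (act (g l))⁻¹ (s b)) := by
      have e1 : ∀ a ∈ F, ∑ b ∈ F.erase a, ∑ l, p l * hitL g ξ P ((act (g l))⁻¹ (s a ⊓ s b)) =
          ∑ l, p l * ∑ b ∈ F.erase a, hitL g ξ P ((act (g l))⁻¹ (s a) ⊓ (act (g l))⁻¹ (s b)) := by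
        intro a _
        rw [Finset.sum_comm]
        exact Finset.sum_congr rfl fun l _ => by rw [Finset.mul_sum]; rfl
      rw [Finset.sum_congr rfl e1, Finset.sum_comm]
      exact Finset.sum_congr rfl fun l _ => by rw [Finset.mul_sum]
    rw [h1, h2]
    have h3 : (1:ℝ) + ∑ l, p l * ∑ a ∈ F, ∑ b ∈ F.erase a,
        hitL g ξ P ((act (g l))⁻¹ (s a) ⊓ (act (g l))⁻¹ (s b)) =
        ∑ l, p l * (1 + ∑ a ∈ F, ∑ b ∈ F.erase a,
          hitL g ξ P ((act (g l))⁻¹ (s a) ⊓ (act (g l))⁻¹ (s b))) := by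
      simp only [mul_add, mul_one, Finset.sum_add_distrib, hp.2]
    rw [h3]
    exact Finset.sum_le_sum fun l _ => mul_le_mul_of_nonneg_left
      (bonferroniL P (fun q hq => hP q (List.mem_cons_of_mem _ hq)) F
        (fun a => (act (g l))⁻¹ (s a))) (hp.1 l)

/-- the step of the induction -/
theorem coreL [FiniteDimensional ℂ V] {B : Set (List (ι → ℝ))} (hB : ∀ b ∈ B, ∀ p ∈ b, IsP p)
    (𝒲 N : Set (Submodule ℂ V))
    (h𝒲 : ∀ W ∈ 𝒲, ∀ l, (act (g l))⁻¹ W ∈ 𝒲) (h𝒲' : ∀ W ∈ 𝒲, ∀ W' ≤ W, W' ∈ 𝒲)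
    (hN : ∀ W, ∀ l, (act (g l))⁻¹ W ∈ N → W ∈ N)
    (hN' : ∀ W ∈ 𝒲, W ∉ N → ∀ P, hitL g ξ P W = 0) (ρ : ℝ) (hρ0 : 0 ≤ ρ)
    (hρ : ∀ b ∈ B, ∀ f : L2 (Submodule ℂ V), (∀ W, W ∉ N → f W = 0) →
      ‖opr (fun l => act (g l)) b f‖ ≤ ρ * ‖f‖)
    (d k : ℕ) (τ c : ℝ) (hτ : 0 < τ) (hc : 0 ≤ c) (hcτ : 9 * c ≤ τ ^ 2)
    (P1 P2 : List (ι → ℝ)) (hP1 : Sc B k P1) (hP2 : ∀ p ∈ P2, IsP p)
    (hd : ∀ W ∈ 𝒲, Module.finrank ℂ W ≤ d → hitL g ξ P2 W ≤ c)
    (W : Submodule ℂ V) (hW : W ∈ 𝒲) (hWd : Module.finrank ℂ W = d + 1) :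
    hitL g ξ (P1 ++ P2) W ≤ τ + √2 * ρ ^ k := by
  classical
  -- the set of the subspaces with large probability
  set Fτ : Set (Submodule ℂ V) := {W | W ∈ 𝒲 ∧ Module.finrank ℂ W = d + 1 ∧ τ < hitL g ξ P2 W} with hF
  have h1 : ∀ F : Finset (Submodule ℂ V), (∀ W ∈ F, W ∈ Fτ) → ∑ W ∈ F, hitL g ξ P2 W ≤ 2 := by
    intro F
    induction F using Finset.induction_on with
    | empty => intro _; simp
    | insert a F ha ih =>
      intro hF2
      have ih' := ih (fun W hW => hF2 W (Finset.mem_insert_of_mem hW))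
      have haF := hF2 a (Finset.mem_insert_self a F)
      have hτ1 : τ < 1 := lt_of_lt_of_le haF.2.2 (hitL_le_one P2 hP2 a)
      have hcard : (F.card : ℝ) * τ ≤ 2 := by
        refine le_trans ?_ ih'
        rw [← nsmul_eq_mul]
        exact Finset.card_nsmul_le_sum F _ τ (fun W hW =>
          (hF2 W (Finset.mem_insert_of_mem hW)).2.2.le)
      have hb := bonferroniL (g := g) (ξ := ξ) P2 hP2 (insert a F) (fun W => W)
      have hpair : ∑ W ∈ insert a F, ∑ W' ∈ (insert a F).erase W, hitL g ξ P2 (W ⊓ W') ≤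
          ∑ W ∈ insert a F, ∑ W' ∈ insert a F, c := by
        refine Finset.sum_le_sum fun W hW => ?_
        have e1 : ∑ W' ∈ (insert a F).erase W, hitL g ξ P2 (W ⊓ W') ≤
            ∑ W' ∈ (insert a F).erase W, c := by
          refine Finset.sum_le_sum fun W' hW' => ?_
          have hne := Finset.ne_of_mem_erase hW'
          have hW1 := hF2 W hW
          have hW2 := hF2 W' (Finset.mem_of_mem_erase hW')
          apply hd _ (h𝒲' W hW1.1 _ inf_le_left)
          have hlt : W ⊓ W' < W := by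
            refine lt_of_le_of_ne inf_le_left fun he => hne ?_
            have hle : W ≤ W' := inf_eq_left.1 he
            exact (Submodule.eq_of_le_of_finrank_eq hle (by rw [hW1.2.1, hW2.2.1])).symm
          have := Submodule.finrank_lt_finrank_of_lt hlt
          rw [hW1.2.1] at this
          omega
        exact le_trans e1 (Finset.sum_le_sum_of_subset_of_nonneg (Finset.erase_subset _ _)
          (fun _ _ _ => hc))
      rw [Finset.sum_const, Finset.sum_const, nsmul_eq_mul, nsmul_eq_mul,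
        Finset.card_insert_of_notMem ha] at hpair
      push_cast at hpair
      have hn : ((F.card : ℝ) + 1) * τ ≤ 3 := by nlinarith
      have hn2 : (((F.card : ℝ) + 1) * τ) ^ 2 ≤ 9 := by
        have : 0 ≤ ((F.card : ℝ) + 1) * τ := by positivity
        nlinarith
      have hn3 : 9 * (((F.card : ℝ) + 1) * (((F.card : ℝ) + 1) * c)) ≤ 9 := by
        have : ((F.card : ℝ) + 1) ^ 2 * (9 * c) ≤ ((F.card : ℝ) + 1) ^ 2 * τ ^ 2 :=
          mul_le_mul_of_nonneg_left hcτ (by positivity)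
        nlinarith
      linarith
  have hfin : Fτ.Finite := by
    by_contra hinf
    have hinf : Fτ.Infinite := hinf
    obtain ⟨n, hn⟩ := exists_nat_gt (2 / τ)
    obtain ⟨F, hF1, hF2⟩ := hinf.exists_subset_card_eq n
    have h2 := h1 F (fun W hW => hF1 hW)
    have h3 : (F.card : ℝ) * τ ≤ 2 := by
      refine le_trans ?_ h2
      rw [← nsmul_eq_mul]
      exact Finset.card_nsmul_le_sum F _ τ (fun W hW => (hF1 hW).2.2.le)
    rw [hF2] at h3
    rw [div_lt_iff₀ hτ] at hn
    linarith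
  -- the function φ
  have hsum : Summable fun W => (if W ∈ Fτ then hitL g ξ P2 W else 0) ^ 2 := by
    refine summable_of_ne_finset_zero (s := hfin.toFinset) fun W hW => ?_
    rw [if_neg (fun h => hW (hfin.mem_toFinset.2 h))]
    simp
  let φ : L2 (Submodule ℂ V) := ⟨fun W => if W ∈ Fτ then hitL g ξ P2 W else 0, mem_of_summable hsum⟩
  have hφ : ∀ W, φ W = if W ∈ Fτ then hitL g ξ P2 W else 0 := fun W => rfl
  have hφn : ‖φ‖ ≤ √2 := by
    have e1 : ‖φ‖ ^ 2 ≤ 2 := by
      rw [norm_sq, tsum_eq_sum (s := hfin.toFinset) (fun W hW => by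
        rw [hφ, if_neg (fun h => hW (hfin.mem_toFinset.2 h))]; simp)]
      refine le_trans (Finset.sum_le_sum (g := fun W => hitL g ξ P2 W) fun W hW => ?_)
        (h1 hfin.toFinset (fun W hW => hfin.mem_toFinset.1 hW))
      rw [hφ, if_pos (hfin.mem_toFinset.1 hW)]
      have e2 := hitL_nonneg (g := g) (ξ := ξ) P2 hP2 W
      have e3 := hitL_le_one (g := g) (ξ := ξ) P2 hP2 W
      nlinarith
    exact Real.le_sqrt_of_sq_le e1
  -- iterate
  have hsupp : ∀ P : List (ι → ℝ), ∀ W, W ∉ N → (opr (fun l => act (g l)) P φ) W = 0 := by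
    intro P
    induction P with
    | nil =>
      intro W hW
      show φ W = 0
      rw [hφ]
      split_ifs with h
      · exact hN' W h.1 hW P2
      · rfl
    | cons p P ih =>
      intro W hW
      show (avg p (fun l => act (g l)) (opr (fun l => act (g l)) P φ)) W = 0
      rw [avg_apply]
      refine Finset.sum_eq_zero fun l _ => ?_
      rw [ih _ (fun h => hW (hN W l h)), mul_zero]
  have hnorm : ∀ (j : ℕ) (P : List (ι → ℝ)), Sc B j P → ‖opr (fun l => act (g l)) P φ‖ ≤ ρ ^ j * √2 := by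
    intro j P hP
    induction hP with
    | nil =>
      show ‖φ‖ ≤ _
      simpa using hφn
    | step p hp h ih => exact (avg_le p hp _ _).trans ih
    | @block j P b hb h ih =>
      rw [opr_append]
      refine le_trans (hρ b hb _ (hsupp P)) ?_
      rw [pow_succ']
      have := mul_le_mul_of_nonneg_left ih hρ0
      linarith
  have hmain : ∀ P : List (ι → ℝ), (∀ p ∈ P, IsP p) → ∀ W ∈ 𝒲, Module.finrank ℂ W = d + 1 →
      hitL g ξ (P ++ P2) W ≤ τ + (opr (fun l => act (g l)) P φ) W := by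
    intro P
    induction P with
    | nil =>
      intro _ W hW hWd
      show hitL g ξ P2 W ≤ τ + φ W
      rw [hφ]
      split_ifs with h
      · linarith
      · rw [add_zero]
        by_contra hcon
        exact h ⟨hW, hWd, not_le.1 hcon⟩
    | cons p P ih =>
      intro hP W hW hWd
      have hp := hP p List.mem_cons_self
      have hP' : ∀ q ∈ P, IsP q := fun q hq => hP q (List.mem_cons_of_mem _ hq)
      show hitL g ξ (p :: (P ++ P2)) W ≤ τ + (avg p (fun l => act (g l)) (opr (fun l => act (g l)) P φ)) W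
      rw [avg_apply, hitL_cons]
      have e2 : τ = ∑ l, p l * τ := by rw [← Finset.sum_mul, hp.2, one_mul]
      calc ∑ l, p l * hitL g ξ (P ++ P2) ((act (g l))⁻¹ W)
          ≤ ∑ l, p l * (τ + (opr (fun l => act (g l)) P φ) ((act (g l))⁻¹ W)) :=
            Finset.sum_le_sum fun l _ => mul_le_mul_of_nonneg_left
              (ih hP' _ (h𝒲 W hW l) (by rw [act_inv_finrank, hWd])) (hp.1 l)
        _ = _ := by
            simp only [mul_add, Finset.sum_add_distrib]
            rw [← e2]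
  have h5 := hmain P1 (Sc_isP hB hP1) W hW hWd
  have h6 : (opr (fun l => act (g l)) P1 φ) W ≤ ‖opr (fun l => act (g l)) P1 φ‖ := by
    have := lp.norm_apply_le_norm (p := 2) (by norm_num) (opr (fun l => act (g l)) P1 φ) W
    exact le_trans (le_abs_self _) this
  have h7 := hnorm k P1 hP1
  linarith [mul_comm (√2) (ρ ^ k)]

end main

theorem t_DEC : S_DEC := by
  intro V ι _ _ _ _ g ξ B hB N hN hbot ρ hρ0 hρ1 hρ d
  induction d with
  | zero =>
    refine ⟨1, 1 / 2, by norm_num, by norm_num, by norm_num, ?_⟩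
    intro 𝒲 _ _ hN' W hW hd k P _
    have : W = ⊥ := Submodule.finrank_eq_zero.1 (Nat.le_zero.1 hd)
    subst this
    rw [hN' _ hW hbot P]
    positivity
  | succ d ih =>
    obtain ⟨C, r, hC, hr0', hr1, ih⟩ := ih
    have hr0 := hr0'.le
    set s : ℝ := max (max (√r) ρ) (1 / 2) with hsdef
    have hs1 : s < 1 := by
      refine max_lt (max_lt ?_ hρ1) (by norm_num)
      rw [Real.sqrt_lt' one_pos]; simpa using hr1
    have hs2 : 1 / 2 ≤ s := le_max_right _ _
    have hs3 : √r ≤ s := le_trans (le_max_left _ _) (le_max_left _ _)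
    have hs4 : ρ ≤ s := le_trans (le_max_right _ _) (le_max_left _ _)
    have hs5 : r ≤ s ^ 2 := by
      calc r = √r ^ 2 := (Real.sq_sqrt hr0).symm
        _ ≤ s ^ 2 := by gcongr
    set K : ℝ := 3 * √(C + 1) + √2 with hK
    have hK0 : 0 ≤ K := by positivity
    set r' : ℝ := √s with hr'
    have hr'2 : r' ^ 2 = s := Real.sq_sqrt (by linarith)
    have hr'0 : 0 ≤ r' := Real.sqrt_nonneg _
    have hr'1 : r' < 1 := by
      rw [hr', Real.sqrt_lt' one_pos]; simpa using hs1
    have hr'3 : 1 / 2 ≤ r' := by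
      by_contra h
      push Not at h
      nlinarith
    have hr'4 : r ≤ r' := by nlinarith
    refine ⟨C + 2 * K, r', by positivity, by linarith, hr'1, ?_⟩
    intro 𝒲 h𝒲 h𝒲' hN' W hW hWd n P hP
    rcases Nat.lt_or_ge (Module.finrank ℂ W) (d + 1) with hlt | hge
    · have h1 := ih 𝒲 h𝒲 h𝒲' hN' W hW (by omega) n P hP
      refine le_trans h1 ?_
      have h2 : r ^ n ≤ r' ^ n := by gcongr
      have h3 : 0 ≤ r' ^ n := by positivity
      nlinarith [mul_le_mul_of_nonneg_left h2 hC, mul_nonneg hK0 h3]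
    · have hWd' : Module.finrank ℂ W = d + 1 := by omega
      have heven : ∀ k P, Sc B (k + k) P → ∀ W ∈ 𝒲, Module.finrank ℂ W = d + 1 →
          hitL g ξ P W ≤ K * s ^ k := by
        intro k P hP W hW hWd
        obtain ⟨P1, P2, hP12, hP1, hP2⟩ := Sc_split hP k k rfl
        rw [hP12]
        have h1 := coreL (g := g) (ξ := ξ) hB 𝒲 N h𝒲 h𝒲' hN hN' ρ hρ0 hρ d k
          (3 * √(C + 1) * s ^ k) (C * r ^ k) (by positivity) (by positivity) (by
            have e1 : (3 * √(C + 1) * s ^ k) ^ 2 = 9 * (C + 1) * (s ^ 2) ^ k := by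
              rw [mul_pow, mul_pow, Real.sq_sqrt (by linarith)]; ring
            rw [e1]
            have e2 : r ^ k ≤ (s ^ 2) ^ k := by gcongr
            have e3 : 0 ≤ (s ^ 2) ^ k := by positivity
            nlinarith [mul_le_mul_of_nonneg_left e2 hC])
          P1 P2 hP1 (Sc_isP hB hP2)
          (fun W hW hd => ih 𝒲 h𝒲 h𝒲' hN' W hW hd k P2 hP2) W hW hWd
        refine le_trans h1 ?_
        have h2 : ρ ^ k ≤ s ^ k := by gcongr
        have h3 := mul_le_mul_of_nonneg_left h2 (Real.sqrt_nonneg 2)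
        rw [hK]
        linarith
      have hr'5 : ∀ k, s ^ k = r' ^ (k + k) := fun k => by rw [← two_mul, pow_mul, hr'2]
      rcases Nat.even_or_odd' n with ⟨k, rfl | rfl⟩
      · rw [two_mul k] at hP ⊢
        refine le_trans (heven k P hP W hW hWd') ?_
        rw [hr'5]
        have : 0 ≤ r' ^ (k + k) := by positivity
        nlinarith [mul_nonneg hK0 this, mul_nonneg hC this]
      · rw [two_mul k] at hP ⊢
        have e2 := heven k P (Sc_weak hB hP (k + k) rfl) W hW hWd'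
        refine le_trans e2 ?_
        rw [hr'5, pow_succ]
        have h3 : 0 ≤ r' ^ (k + k) := by positivity
        have h4 : K * r' ^ (k + k) ≤ 2 * K * (r' ^ (k + k) * r') := by
          nlinarith [mul_nonneg hK0 h3]
        have h5 : 0 ≤ C * (r' ^ (k + k) * r') := by positivity
        nlinarith

end Pool.Agent.J4H62.QT
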