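import Pool.Agent.J4H23.QT.Stm

/-!
# Letters far from a set of indices (project QT)
-/

set_option autoImplicit false

namespace Pool.Agent.J4H62.QT

open Finset Pool.Agent.H891R2.Jones Pool.Agent.W639.RB Pool.Agent.W705.JR Pool.Agent.J4H23.QT

variable {m : ℕ}

/-- distance at least 2 -/
def far (i j : ℕ) : Prop := i + 2 ≤ j ∨ j + 2 ≤ i

theorem far_symm {i j : ℕ} (h : far i j) : far j i := h.symm

theorem e_comm (i j : ℕ) (hi : i + 1 < m) (hj : j + 1 < m) (h : far i j) :
    e m i * e m j = e m j * e m i := by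
  rcases h with h | h
  · exact (e_TL m).far i j hj h
  · exact ((e_TL m).far j i hi h).symm

theorem gg_EE2_far (x : Letter m) (j : ℕ) (hj : j + 1 < m) (h : far x.2 j) (v : VV m) :
    gg x (EE2 j v) = EE2 j (gg x v) := by
  have h1 := LinearMap.congr_fun (e_comm (m := m) x.2 j (idx_lt x) hj h) v.1
  rw [Module.End.mul_apply, Module.End.mul_apply] at h1
  refine Prod.ext ?_ ?_
  · show sg (Bb x.1) (e m) x.2 (e m j v.1) = e m j (sg (Bb x.1) (e m) x.2 v.1)
    simp only [sg, LinearMap.add_apply, LinearMap.smul_apply, Module.End.one_apply, map_add, map_smul]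
    rw [h1]
  · show m2 x 0 = 0
    simp

/-- the letter `b` does not change the stability under `E_j`, `j ∈ J` -/
def ok (J : Set ℕ) (b : ℕ) : Prop := b ∈ J ∨ ∀ j ∈ J, far b j

theorem Stab_one (J : Set ℕ) (x : Letter m) (hx : ok J x.2) (W : Submodule ℂ (VV m)) (h : Stab J W) :
    Stab J ((act (gg x))⁻¹ W) := by
  rcases hx with hx | hx
  · exact Stab_act J x hx W h
  · intro j hj hjm v hv
    rw [mem_act_inv] at hv ⊢
    rw [gg_EE2_far x j hjm (hx j hj)]
    exact h j hj hjm _ hv

theorem Stab_xx (J : Set ℕ) (b : Fin (m-1)) (hb : ok J b) (W : Submodule ℂ (VV m)) :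
    Stab J (xx b W) ↔ Stab J W := by
  constructor
  · intro h
    have h1 := Stab_one J (true, b) hb _ h
    have e1 : (act (gg ((true, b) : Letter m)))⁻¹ (xx b W) = W := Equiv.symm_apply_apply _ _
    rwa [e1] at h1
  · intro h
    have h1 := Stab_one J (inv' (true, b)) hb _ h
    rwa [gg_inv', act_symm, inv_inv] at h1

theorem wd_cons (b : Fin (m-1)) (c : List (Fin (m-1))) : wd (b :: c) = xx b * wd c := by
  unfold wd
  rw [List.map_cons, List.prod_cons]

theorem wd_nil : wd ([] : List (Fin (m-1))) = 1 := rfl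

theorem wd_append (c c' : List (Fin (m-1))) : wd (c ++ c') = wd c * wd c' := by
  unfold wd
  rw [List.map_append, List.prod_append]

theorem Stab_wd (J : Set ℕ) (c : List (Fin (m-1))) (hc : ∀ b ∈ c, ok J b) (W : Submodule ℂ (VV m)) :
    Stab J (wd c W) ↔ Stab J W := by
  induction c with
  | nil => rfl
  | cons b c ih =>
    rw [wd_cons, Equiv.Perm.mul_apply, Stab_xx J b (hc b List.mem_cons_self)]
    exact ih fun b' h => hc b' (List.mem_cons_of_mem _ h)

theorem cst2_far (x y : Letter m) (h : far x.2 y.2) (U : Fin m → Bool) :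
    cst2 y (U ∘ sw x) = cst2 y U := by
  have h1 : ∀ j : ℕ, j ≠ x.2 → j ≠ x.2 + 1 → pat (U ∘ sw x) j = pat U j := by
    intro j h1 h2
    unfold sw
    rw [pat_swap U x.2 (idx_lt x), Function.comp_apply, Equiv.swap_apply_of_ne_of_ne h1 h2]
  unfold far at h
  unfold cst2
  rw [h1 _ (by omega) (by omega), h1 _ (by omega) (by omega)]

theorem sw_far (x y : Letter m) (h : far x.2 y.2) (U : Fin m → Bool) :
    (U ∘ sw x) ∘ sw y = (U ∘ sw y) ∘ sw x := by
  have h1 : Commute (sw x) (sw y) := by
    apply Equiv.Perm.Disjoint.commute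
    unfold far at h
    intro j
    by_cases h2 : (j : ℕ) = x.2 ∨ (j : ℕ) = x.2 + 1
    · right
      unfold sw
      apply Equiv.swap_apply_of_ne_of_ne
      · intro h3
        rw [h3] at h2
        simp only at h2
        omega
      · intro h3
        rw [h3] at h2
        simp only at h2
        omega
    · left
      push Not at h2
      unfold sw
      apply Equiv.swap_apply_of_ne_of_ne
      · intro h3
        exact h2.1 (by rw [h3])
      · intro h3
        exact h2.2 (by rw [h3])
  funext j
  have h2 := Equiv.congr_fun h1.eq j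
  simp only [Equiv.Perm.mul_apply] at h2
  simp only [Function.comp_apply]
  rw [h2]

theorem gg_far (x y : Letter m) (h : far x.2 y.2) : gg x * gg y = gg y * gg x := by
  have h0 := e_comm (m := m) x.2 y.2 (idx_lt x) (idx_lt y) h
  apply LinearEquiv.ext
  intro v
  show gg x (gg y v) = gg y (gg x v)
  refine Prod.ext ?_ ?_
  · show (sg (Bb x.1) (e m) x.2) ((sg (Bb y.1) (e m) y.2) v.1) =
      (sg (Bb y.1) (e m) y.2) ((sg (Bb x.1) (e m) x.2) v.1)
    have h1 : sg (Bb x.1) (e m) x.2 * sg (Bb y.1) (e m) y.2 =
        sg (Bb y.1) (e m) y.2 * sg (Bb x.1) (e m) x.2 := by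
      simp only [sg, add_mul, mul_add, smul_mul_assoc, mul_smul_comm, one_mul, mul_one, h0]
      module
    exact LinearMap.congr_fun h1 v.1
  · show m2 x (m2 y v.2) = m2 y (m2 x v.2)
    funext U
    rw [m2_apply, m2_apply, m2_apply, m2_apply, cst2_far x y h, cst2_far y x (far_symm h),
      sw_far x y h]
    ring

theorem xx_far (a b : Fin (m-1)) (h : far a b) : Commute (xx a) (xx b) := by
  show xx a * xx b = xx b * xx a
  unfold xx
  rw [← actH_apply, ← actH_apply, ← map_mul, ← map_mul, gg_far _ _ h]

theorem xx_wd (a : Fin (m-1)) (c : List (Fin (m-1))) (h : ∀ b ∈ c, far a b) :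
    Commute (xx a) (wd c) := by
  induction c with
  | nil => exact Commute.one_right _
  | cons b c ih =>
    rw [wd_cons]
    exact (xx_far a b (h b List.mem_cons_self)).mul_right
      (ih fun b' h' => h b' (List.mem_cons_of_mem _ h'))

/-- a word in which the letters with `P` are far from the letters without `P` -/
theorem wd_split (P : Fin (m-1) → Bool) (c : List (Fin (m-1)))
    (h : ∀ a ∈ c, ∀ b ∈ c, P a = false → P b = true → far a b) :
    wd c = wd (c.filter P) * wd (c.filter fun x => !P x) := by
  induction c with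
  | nil => rfl
  | cons b c ih =>
    have ih' := ih fun a ha b' hb' => h a (List.mem_cons_of_mem _ ha) b' (List.mem_cons_of_mem _ hb')
    rw [wd_cons, ih']
    cases hb : P b with
    | true =>
      rw [List.filter_cons_of_pos (by simpa using hb), List.filter_cons_of_neg (by simp [hb]), wd_cons,
        mul_assoc]
    | false =>
      rw [List.filter_cons_of_neg (by simp [hb]), List.filter_cons_of_pos (by simp [hb]), wd_cons,
        ← mul_assoc, ← mul_assoc]
      congr 1
      exact (xx_wd b _ fun a ha => h b List.mem_cons_self a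
        (List.mem_cons_of_mem _ (List.mem_of_mem_filter ha)) hb (by simpa using (List.mem_filter.1 ha).2)).eq

end Pool.Agent.J4H62.QT
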