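import Pool.Agent.J4H23.QT.Stm

/-!
# The link between the probabilities and the subspaces (project QT, piece HK)
-/

set_option autoImplicit false

namespace Pool.Agent.J4H62.QT

open Finset LaurentPolynomial Pool.Agent.H891R2.Jones Pool.Agent.W639.RB Pool.Agent.W705.JR Pool.Agent.J4H23.QT

variable {m : ℕ}

theorem sum_lp (j : Fin (m-1)) (t : ℝ) (G : Letter m → ℝ) :
    ∑ l, lp j t l * G l = t * G (true, j) + (1 - t) * G (false, j) := by
  classical
  have h := Fintype.sum_prod_type (fun l : Bool × Fin (m-1) => lp j t l * G l)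
  have h2 : ∑ l : Letter m, lp j t l * G l = ∑ b : Bool, ∑ i : Fin (m-1), lp j t (b, i) * G (b, i) := h
  rw [h2, Fintype.sum_bool]
  unfold Pool.Agent.J4H23.QT.lp
  simp only [ite_mul, zero_mul, Finset.sum_ite_eq', Finset.mem_univ, if_true]
  rfl

theorem t_HK : S_HK := by
  classical
  intro m hm z n
  induction n with
  | zero =>
    intro O c p
    rw [List.ofFn_zero]
    show (if xi m ∈ LinearMap.ker (fn O z) then (1:ℝ) else 0) = _
    refine Eq.trans ?_ (Fintype.sum_unique _).symm
    show _ = if ev 3 le_rfl O.close.fPoly = z then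
      ∏ i : Fin 0, (if (default : Fin 0 → Bool) i then p i else 1 - p i) else (0:ℝ)
    simp only [xi_mem_iff hm, Finset.univ_eq_empty, Finset.prod_empty]
  | succ n ih =>
    intro O c p
    rw [List.ofFn_succ]
    show ∑ l, lp (c 0) (p 0) l * hitL gg (xi m) (List.ofFn fun i : Fin n => lp (c i.succ) (p i.succ))
      ((act (gg l))⁻¹ (LinearMap.ker (fn O z))) = _
    rw [sum_lp]
    simp only [act_ker]
    rw [ih, ih]
    set F : (Fin (n+1) → Bool) → ℝ := fun s =>
        if ev 3 le_rfl (draw O (toL fun i => ((s i, c i) : Letter m))).close.fPoly = z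
          then ∏ i, (if s i then p i else 1 - p i) else (0:ℝ) with hF
    have e3 := (Fin.consEquiv (fun _ : Fin (n+1) => Bool)).sum_comp F
    have e5 := Fintype.sum_prod_type (fun i : Bool × (Fin n → Bool) =>
      F ((Fin.consEquiv (fun _ : Fin (n+1) => Bool)) i))
    have e6 : ∀ (b : Bool) (s : Fin n → Bool), F ((Fin.consEquiv (fun _ : Fin (n+1) => Bool)) (b, s)) =
        (if b then p 0 else 1 - p 0) *
        (if ev 3 le_rfl (draw (O.push b (c 0)) (toL fun i => ((s i, c i.succ) : Letter m))).close.fPoly = z
          then ∏ i, (if s i then p i.succ else 1 - p i.succ) else (0:ℝ)) := by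
      intro b s
      have h2 : (Fin.consEquiv (fun _ : Fin (n+1) => Bool)) (b, s) =
        (Fin.cons b s : Fin (n+1) → Bool) := rfl
      have h3 : (fun i => (((Fin.cons b s : Fin (n+1) → Bool) i, c i) : Letter m)) =
          (Fin.cons ((b, c 0) : Letter m) (fun i : Fin n => ((s i, c i.succ) : Letter m)) :
            Fin (n+1) → Letter m) := by
        funext i
        refine Fin.cases ?_ (fun i => ?_) i
        · simp
        · simp
      rw [h2, hF]
      dsimp only
      rw [h3, draw_cons, Fin.prod_univ_succ]
      simp only [Fin.cons_zero, Fin.cons_succ]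
      split_ifs <;> ring
    refine Eq.trans ?_ e3
    refine Eq.trans ?_ e5.symm
    rw [Fintype.sum_bool]
    simp only [e6]
    rw [← Finset.mul_sum, ← Finset.mul_sum]
    simp

end Pool.Agent.J4H62.QT
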